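import Mathlib
import Pool.Agent.Lib.MP_3de96c_nt.Final

/-!
Negative answer to the question: on `X = P² × P¹ ⊆ P⁵` (Segre) the morphism
`f = (squaring of coordinates, cubing of coordinates)` has first dynamical degree `3`, and the
lines `Y ζ = {x₁ = ζ x₀} × {(1 : 1)}`, for `ζ` a root of unity of order `2^m - 1`, are
`f`-periodic of period exactly `m`, have `d₁(f^m | Y) = 2^m < 3^m = d₁(f^m)`, and all pass
through the rational point `((0 : 0 : 1), (1 : 1))`.
-/

namespace Pool.Agent.Results.MP_3de96c_nt.Negative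

open Pool.Agent.Lib.MP_3de96c_nt

theorem result (K : Type*) [Field K] [NumberField K] :
    ∃ (X : ProjVar K (Fin 3 × Fin 2)) (f : X.pts → X.pts),
      RegularOver K X.pts f ∧ Function.Surjective f ∧
      (∃ δ : ℝ, FirstDynDeg f Set.univ δ ∧ 1 < δ) ∧
      ∀ d : ℝ, 1 ≤ d → ∀ N : ℕ, ∃ Y : Set X.pts,
        ClosedOver (AlgebraicClosure K) (Subtype.val '' Y) ∧ Irred (Subtype.val '' Y) ∧
        SDD f Y ∧
        (∃ s : ℕ, IsLeast {s : ℕ | 0 < s ∧ f^[s] '' Y = Y} s ∧ N < s) ∧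
        ∃ x ∈ Y, (ptDegree K (x : PP (AlgebraicClosure K) (Fin 3 × Fin 2)) : ℝ) ≤ d := by
  have hcz : CharZero K := inferInstance
  have hcz' : CharZero (AlgebraicClosure K) := inferInstance
  refine ⟨⟨XS (AlgebraicClosure K), XS_closed K, XS_irred⟩, fX, fX_regular K, fX_surjective,
    ⟨3, ?_, by norm_num⟩, ?_⟩
  · have h := firstDynDeg_X (L := AlgebraicClosure K) 1
    rw [Function.iterate_one, pow_one] at h
    exact h
  · intro d hd N
    have hne : 2 ^ (N + 1) - 1 ≠ 0 := by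
      have h5 : 2 ≤ 2 ^ (N + 1) := by
        calc 2 = 2 ^ 1 := rfl
          _ ≤ 2 ^ (N + 1) := Nat.pow_le_pow_right (by norm_num) (Nat.succ_pos N)
      omega
    have : NeZero ((2 ^ (N + 1) - 1 : ℕ) : AlgebraicClosure K) := ⟨Nat.cast_ne_zero.mpr hne⟩
    have : NeZero ((2 ^ (N + 1) - 1 : ℕ) : K) := ⟨Nat.cast_ne_zero.mpr hne⟩
    obtain ⟨ζ, hζ⟩ := HasEnoughRootsOfUnity.exists_primitiveRoot (AlgebraicClosure K)
      (2 ^ (N + 1) - 1)
    have hper := period_YS ζ (N + 1) (Nat.succ_pos N) hζ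
    refine ⟨YS ζ, YS_closed ζ, YS_irred ζ, ⟨N + 1, Nat.succ_pos N, hper.1.2, 2 ^ (N + 1),
      3 ^ (N + 1), ?_, firstDynDeg_X (N + 1), ?_⟩, ⟨N + 1, hper, Nat.lt_succ_self N⟩, ?_⟩
    · apply firstDynDeg_Y
      have h1 : 2 ^ (N + 1) = (2 ^ (N + 1) - 1) + 1 := by
        have : 1 ≤ 2 ^ (N + 1) := Nat.one_le_two_pow
        omega
      rw [h1, pow_succ, hζ.pow_eq_one, one_mul]
    · exact pow_lt_pow_left₀ (by norm_num) (by norm_num) (Nat.succ_ne_zero N)
    · obtain ⟨h, hdeg⟩ := ptDegree_eq_one (L := AlgebraicClosure K) K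
      refine ⟨pt _ _ h, ?_, ?_⟩
      · have e : (![0, 0, 1] : Fin 3 → AlgebraicClosure K) = ln ζ 0 1 := by
          ext i; fin_cases i <;> simp [ln]
        have h' : seg (ln ζ 0 1) (one2 (AlgebraicClosure K)) ≠ 0 := by rw [← e]; exact h
        have e2 : pt (![0, 0, 1] : Fin 3 → AlgebraicClosure K) (one2 _) h = pt _ _ h' :=
          pt_congr _ _ e rfl
        rw [e2]
        exact pt_mem_YS _ _ _ _
      · rw [hdeg]
        simpa using hd

end Pool.Agent.Results.MP_3de96c_nt.Negative
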